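import Pool.Agent.R238.BK.Main

set_option autoImplicit false

open Filter Topology Set Asymptotics

namespace Pool.Agent.Results.MP_96bc49_an.ShilovRigid

/-- the symmetrization map `π_n : ℂ^n → ℂ^n`: the coordinate with index `k = 0, …, n - 1` of
`sym l` is the elementary symmetric polynomial of degree `k + 1` in `l_1, …, l_n` -/
def sym {n : ℕ} (l : Fin n → ℂ) (k : Fin n) : ℂ :=
  ∑ s ∈ Finset.powersetCard ((k : ℕ) + 1) (Finset.univ : Finset (Fin n)), ∏ i ∈ s, l i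

/-- the symmetrized polydisc `G_n = π_n(D^n)` -/
def G (n : ℕ) : Set (Fin n → ℂ) := sym '' {l | ∀ i, ‖l i‖ < 1}

/-- the Shilov boundary `π_n((∂D)^n)` of the symmetrized polydisc -/
def shilov (n : ℕ) : Set (Fin n → ℂ) := sym '' {l | ∀ i, ‖l i‖ = 1}

/-- the Euclidean norm on `ℂ^n` -/
noncomputable def eu {n : ℕ} (v : Fin n → ℂ) : ℝ := √(∑ i, ‖v i‖ ^ 2)

/-- the Burns-Krantz rigidity property of the pair `(D, p)`: every holomorphic `F : D → D` with
`F(z) = z + o(‖z - p‖³)` as `z → p`, `z ∈ D`, is the identity of `D` -/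
def BurnsKrantz {n : ℕ} (D : Set (Fin n → ℂ)) (p : Fin n → ℂ) : Prop :=
  ∀ F : (Fin n → ℂ) → (Fin n → ℂ), DifferentiableOn ℂ F D → MapsTo F D D →
    (fun z => eu (F z - z)) =o[𝓝[D] p] (fun z => eu (z - p) ^ 3) → ∀ z ∈ D, F z = z

lemma eu_nonneg {n : ℕ} (v : Fin n → ℂ) : 0 ≤ eu v := Real.sqrt_nonneg _

lemma norm_le_eu {n : ℕ} (v : Fin n → ℂ) : ‖v‖ ≤ eu v := by
  rw [pi_norm_le_iff_of_nonneg (eu_nonneg v)]
  intro i
  apply Real.le_sqrt_of_sq_le
  exact Finset.single_le_sum (f := fun i => ‖v i‖ ^ 2) (fun j _ => sq_nonneg _)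
    (Finset.mem_univ i)

lemma eu_le_norm {n : ℕ} (v : Fin n → ℂ) : eu v ≤ √(n : ℝ) * ‖v‖ := by
  rw [eu]
  have h : ∑ i, ‖v i‖ ^ 2 ≤ (n : ℝ) * ‖v‖ ^ 2 := by
    calc ∑ i, ‖v i‖ ^ 2 ≤ ∑ _i : Fin n, ‖v‖ ^ 2 := by
          gcongr with i _
          exact norm_le_pi_norm v i
      _ = _ := by rw [Finset.sum_const, Finset.card_univ, Fintype.card_fin, nsmul_eq_mul]
  calc √(∑ i, ‖v i‖ ^ 2) ≤ √((n : ℝ) * ‖v‖ ^ 2) := Real.sqrt_le_sqrt h
    _ = √(n : ℝ) * ‖v‖ := by rw [Real.sqrt_mul (Nat.cast_nonneg n), Real.sqrt_sq (norm_nonneg v)]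

end Pool.Agent.Results.MP_96bc49_an.ShilovRigid

open Pool.Agent.Results.MP_96bc49_an.ShilovRigid in
/-- For every `n` and every point `p` of the Shilov boundary of the symmetrized polydisc `G_n`,
the pair `(G_n, p)` has the Burns-Krantz rigidity property. -/
theorem Pool.Agent.Results.MP_96bc49_an.ShilovRigid.result (n : ℕ) (p : Fin n → ℂ)
    (hp : p ∈ shilov n) : BurnsKrantz (G n) p := by
  intro F hF hm hBK z hz
  rcases Nat.eq_zero_or_pos n with h0 | h0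
  · subst h0
    exact Subsingleton.elim _ _
  have : NeZero n := ⟨h0.ne'⟩
  obtain ⟨l, hl, rfl⟩ := hp
  have h1 : (fun z => F z - z) =o[𝓝[G n] (sym l)] (fun z => ‖z - sym l‖ ^ 3) := by
    have h2 : (fun z => F z - z) =O[𝓝[G n] (sym l)] (fun z => eu (F z - z)) :=
      IsBigO.of_bound 1 (Eventually.of_forall fun z => by
        rw [one_mul, Real.norm_of_nonneg (eu_nonneg _)]
        exact norm_le_eu _)
    have h3 : (fun z => eu (z - sym l) ^ 3) =O[𝓝[G n] (sym l)] (fun z => ‖z - sym l‖ ^ 3) := by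
      apply IsBigO.pow
      exact IsBigO.of_bound (√(n : ℝ)) (Eventually.of_forall fun z => by
        rw [Real.norm_of_nonneg (eu_nonneg _), norm_norm]
        exact eu_le_norm _)
    exact (h2.trans_isLittleO hBK).trans_isBigO h3
  exact Pool.Agent.R238.BK.rigid (n := n) hF hm hl h1 hz
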